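import Pool.Agent.Helper2.LD.St5

/-!
# LD project, module Tch: trunks and fans of copies of centres
-/

set_option autoImplicit false
set_option linter.unusedSectionVars false

namespace Pool.Agent.Helper14.LD

open Pool.Agent.Helper2.LD

section labels

variable {V Q Λ B FB : Type} {N e : ℕ} {c : Core V Q Λ B FB}

private lemma piK_inj {i j : ℕ} (hi : i ≤ 2 * N) (hj : j ≤ 2 * N)
    (h : (piK N i : Kd N Λ B FB) = piK N j) : i = j := by
  unfold piK at h
  injection h with h
  have h2 := congrArg Fin.val h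
  simp only at h2
  rwa [Nat.mod_eq_of_lt (by omega), Nat.mod_eq_of_lt (by omega)] at h2

private lemma mem_tru {x : V} {j : ℕ} {κ : Kd N Λ B FB} :
    κ ∈ gl N e c (.tru x j) ↔ κ = Kd.del (c.lb x) ∨ κ = piK N j := by
  simp [gl]

private lemma del_mem {x : V} {j : ℕ} : (Kd.del (c.lb x) : Kd N Λ B FB) ∈ gl N e c (.tru x j) :=
  mem_tru.2 (Or.inl rfl)

private lemma pi_mem {x : V} {j : ℕ} : (piK N j : Kd N Λ B FB) ∈ gl N e c (.tru x j) :=
  mem_tru.2 (Or.inr rfl)

private lemma tru_congr {x x' : V} {j : ℕ} (h : c.lb x = c.lb x') :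
    gl N e c (.tru x j) = gl N e c (.tru x' j) := by
  ext κ
  rw [mem_tru, mem_tru, h]

private lemma tru_inj {x x' : V} {j j' : ℕ} (hj : j ≤ 2 * N) (hj' : j' ≤ 2 * N)
    (h : gl N e c (.tru x j) = gl N e c (.tru x' j')) : c.lb x = c.lb x' ∧ j = j' := by
  have h1 : (Kd.del (c.lb x) : Kd N Λ B FB) ∈ gl N e c (.tru x' j') := h ▸ del_mem
  have h2 : (piK N j : Kd N Λ B FB) ∈ gl N e c (.tru x' j') := h ▸ pi_mem
  rw [mem_tru] at h1 h2
  constructor
  · rcases h1 with h1 | h1
    · injection h1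
    · simp [piK] at h1
  · rcases h2 with h2 | h2
    · simp [piK] at h2
    · exact piK_inj hj hj' h2

private lemma not_fg {x : V} {j : ℕ} {i : Fin 4} :
    (Kd.fg i : Kd N Λ B FB) ∉ gl N e c (.tru x j) := by
  rw [mem_tru]
  rintro (h | h)
  · cases h
  · simp [piK] at h

private lemma core_ne {x z : V} {j : ℕ} : gl N e c (.core z) ≠ gl N e c (.tru x j) := by
  intro h
  have h1 : (Kd.del (c.lb x) : Kd N Λ B FB) ∈ gl N e c (.core z) := h ▸ del_mem
  simp [gl] at h1

private lemma gho_ne {x : V} {q : Q} {i j : ℕ} : gl N e c (.gho q i) ≠ gl N e c (.tru x j) := by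
  intro h
  have h1 : (Kd.del (c.lb x) : Kd N Λ B FB) ∈ gl N e c (.gho q i) := h ▸ del_mem
  unfold gl at h1
  simp only at h1
  split_ifs at h1 with h2
  · simp at h1
  · simp [piK] at h1

private lemma okfan_congr {x x' : V} (h : c.lb x = c.lb x') {l : Finset (Kd N Λ B FB)}
    (hl : okG N e c (.fan x l)) : okG N e c (.fan x' l) := by
  refine ⟨hl.1, fun j h1 h2 h3 => hl.2 j h1 h2 ?_⟩
  rw [h3]
  exact tru_congr h.symm

end labels

section graph

variable {V Q Λ B FB : Type} {N e : ℕ} {c : Core V Q Λ B FB} {s : Ch V Q}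

/-- Neighbours of a natural hub. -/
private lemma adj_nat {x y : TV N e c s} (h : (TG N e c s).Adj x y) {b : Bool} {u : V}
    {h0 : GH V Q (Kd N Λ B FB)} (hx : x.1 = .nat b u h0) :
    y.1 = .nat b u (pb N e c s b u h0) ∨
      (∃ h', y.1 = .nat b u h' ∧ h0 = pb N e c s b u h') ∨ y.1 = .cap b u h0 := by
  obtain ⟨_, h | h⟩ := h
  · rw [hx] at h
    left
    cases hy : y.1 with
    | nat b' u' h' =>
      rw [hy] at h
      obtain ⟨h1, h2, _, h3⟩ := h
      rw [h1, h2, h3, h1, h2]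
    | cap b' u' h' => rw [hy] at h; exact h.elim
    | pth b' u' j => rw [hy] at h; exact h.elim
    | rt => rw [hy] at h; exact h.elim
  · rw [hx] at h
    right
    cases hy : y.1 with
    | nat b' u' h' =>
      rw [hy] at h
      obtain ⟨h1, h2, _, h3⟩ := h
      left
      subst h1 h2
      exact ⟨h', rfl, h3⟩
    | cap b' u' h' =>
      rw [hy] at h
      obtain ⟨h1, h2, h3⟩ := h
      right
      rw [h1, h2, h3]
    | pth b' u' j => rw [hy] at h; exact h.elim
    | rt => rw [hy] at h; exact h.elim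

/-- Children. -/
private lemma pb_eq_tru {b : Bool} {u x : V} {j : ℕ} {h' : GH V Q (Kd N Λ B FB)}
    (h : GH.tru x j = pb N e c s b u h') :
    (h' = .tru x (j + 1) ∧ 1 ≤ j) ∨ (j = 2 * N - 1 ∧ ∃ l, h' = .fan x l) := by
  cases h' with
  | core z =>
    unfold pb at h
    simp only at h
    split_ifs at h
  | gho q i =>
    unfold pb GH.dp at h
    simp only at h
    split_ifs at h
  | tru x' j' =>
    unfold pb GH.dp at h
    simp only at h
    split_ifs at h with h1
    injection h with h2 h3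
    left
    subst h2
    refine ⟨?_, by omega⟩
    congr 1
    omega
  | fan x' l =>
    unfold pb GH.dp at h
    simp only at h
    injection h with h2 h3
    right
    subst h2
    exact ⟨h3, l, rfl⟩

private lemma pb_ne_fan {b : Bool} {u x : V} {l : Finset (Kd N Λ B FB)}
    {h' : GH V Q (Kd N Λ B FB)} : GH.fan x l ≠ pb N e c s b u h' := by
  intro h
  cases h' with
  | core z =>
    unfold pb at h
    simp only at h
    split_ifs at h
  | gho q i =>
    unfold pb GH.dp at h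
    simp only at h
    split_ifs at h
  | tru x' j' =>
    unfold pb GH.dp at h
    simp only at h
    split_ifs at h
  | fan x' l =>
    unfold pb GH.dp at h
    simp only at h
    cases h

variable [Fintype Λ] [Fintype B] [Fintype FB]

private lemma cap_ne {y : TV N e c s} {b : Bool} {u x : V} {j : ℕ} {h : GH V Q (Kd N Λ B FB)}
    (hy : y.1 = .cap b u h) : tL N e c s y ≠ gl N e c (.tru x j) := by
  intro h1
  have h2 : (Kd.fg (if b = true then 1 else 0) : Kd N Λ B FB) ∈ tL N e c s y := by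
    unfold tL
    rw [hy]
    simp [tl]
  rw [h1] at h2
  exact not_fg h2

private lemma pth_ne {y : TV N e c s} {b : Bool} {u x : V} {i j : ℕ}
    (hy : y.1 = .pth b u i) : tL N e c s y ≠ gl N e c (.tru x j) := by
  intro h1
  have h2 : (Kd.fg 2 : Kd N Λ B FB) ∈ tL N e c s y := by
    unfold tL
    rw [hy]
    simp [tl]
  rw [h1] at h2
  exact not_fg h2

private lemma rt_ne {y : TV N e c s} {x : V} {j : ℕ}
    (hy : y.1 = .rt) : tL N e c s y ≠ gl N e c (.tru x j) := by
  intro h1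
  have h2 : (Kd.fg 3 : Kd N Λ B FB) ∈ tL N e c s y := by
    unfold tL
    rw [hy]
    simp [tl]
  rw [h1] at h2
  exact not_fg h2

private lemma tL_nat {y : TV N e c s} {b : Bool} {u : V} {h : GH V Q (Kd N Λ B FB)}
    (hy : y.1 = .nat b u h) : tL N e c s y = gl N e c h := by
  unfold tL
  rw [hy]
  rfl

/-- A hub with a trunk label. -/
private lemma lab_tru {y : TV N e c s} {x : V} {j : ℕ} (hj : j ≤ 2 * N)
    (h : tL N e c s y = gl N e c (.tru x j)) :
    (∃ b u x', y.1 = .nat b u (.tru x' j) ∧ c.lb x' = c.lb x) ∨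
      ∃ b u x', y.1 = .nat b u (.fan x' (gl N e c (.tru x j))) := by
  cases hy : y.1 with
  | nat b u h0 =>
    rw [tL_nat hy] at h
    cases h0 with
    | core z => exact absurd h core_ne
    | gho q i => exact absurd h gho_ne
    | tru x' j' =>
      have hok := y.2
      rw [hy] at hok
      obtain ⟨_, ⟨h1, h2⟩, _⟩ := hok
      obtain ⟨h3, h4⟩ := tru_inj (by omega) hj h
      left
      subst h4
      exact ⟨b, u, x', rfl, h3⟩
    | fan x' l =>
      right
      have h5 : gl N e c (.fan x' l) = l := rfl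
      rw [h5] at h
      subst h
      exact ⟨b, u, x', rfl⟩
  | cap b u h0 => exact absurd h (cap_ne hy)
  | pth b u i => exact absurd h (pth_ne hy)
  | rt => exact absurd h (rt_ne hy)

/-- No neighbour of a core vertex or a ghost has a trunk label of a position at least two. -/
private lemma nbA {x y : TV N e c s} {b : Bool} {u : V} {h0 : GH V Q (Kd N Λ B FB)}
    (hx : x.1 = .nat b u h0) (h : (TG N e c s).Adj x y)
    (h0' : (∃ z, h0 = .core z) ∨ ∃ q i, h0 = .gho q i) {v : V} {j : ℕ} (hj2 : 2 ≤ j)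
    (hj : j ≤ 2 * N) : tL N e c s y ≠ gl N e c (.tru v j) := by
  intro hl
  rcases adj_nat h hx with h1 | ⟨h', h1, h2⟩ | h1
  · rw [tL_nat h1] at hl
    have h3 : (∃ z, pb N e c s b u h0 = .core z) ∨ ∃ q i, pb N e c s b u h0 = .gho q i := by
      rcases h0' with ⟨z, rfl⟩ | ⟨q, i, rfl⟩
      · unfold pb
        simp only
        split_ifs
        · exact Or.inr ⟨_, _, rfl⟩
        · exact Or.inl ⟨_, rfl⟩
      · unfold pb GH.dp
        simp only
        split_ifs
        · exact Or.inl ⟨_, rfl⟩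
        · exact Or.inr ⟨_, _, rfl⟩
    rcases h3 with ⟨z, h3⟩ | ⟨q, i, h3⟩
    · rw [h3] at hl
      exact core_ne hl
    · rw [h3] at hl
      exact gho_ne hl
  · have hok := y.2
    rcases lab_tru hj hl with ⟨b', u', x', h3, h4⟩ | ⟨b', u', x', h3⟩
    · rw [h1] at h3
      injection h3 with _ _ h3
      subst h3
      unfold pb GH.dp at h2
      simp only at h2
      split_ifs at h2 with h5
      · omega
      · rcases h0' with ⟨z, rfl⟩ | ⟨q, i, rfl⟩ <;> cases h2
    · rw [h1] at h3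
      injection h3 with _ _ h3
      subst h3
      unfold pb GH.dp at h2
      simp only at h2
      rcases h0' with ⟨z, rfl⟩ | ⟨q, i, rfl⟩ <;> cases h2
  · exact cap_ne h1 hl

/-- No neighbour of a path vertex has a trunk label. -/
private lemma nbB {x y : TV N e c s} {b : Bool} {u : V} {i : ℕ}
    (hx : x.1 = .pth b u i ∨ x.1 = .rt) (h : (TG N e c s).Adj x y) {v : V} {j : ℕ} :
    tL N e c s y ≠ gl N e c (.tru v j) := by
  obtain ⟨_, h⟩ := h
  cases hy : y.1 with
  | nat b' u' h' =>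
    rw [hy] at h
    rcases hx with hx | hx <;> rw [hx] at h <;> rcases h with h | h <;> exact h.elim
  | cap b' u' h' => exact cap_ne hy
  | pth b' u' i' => exact pth_ne hy
  | rt => exact rt_ne hy

/-- Neighbours of an own trunk hub. -/
private lemma nbT {x y : TV N e c s} {u : V} {j : ℕ}
    (hx : x.1 = .nat true u (.tru u j)) (h : (TG N e c s).Adj x y) :
    y.1 = .nat true u (if j ≤ 1 then .core u else .tru u (j - 1)) ∨
      (y.1 = .nat true u (.tru u (j + 1)) ∧ j + 1 < 2 * N) ∨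
      (j = 2 * N - 1 ∧ ∃ l, y.1 = .nat true u (.fan u l) ∧ okG N e c (.fan u l)) := by
  have hokx := x.2
  rw [hx] at hokx
  obtain ⟨_, ⟨hj1, hj2⟩, _⟩ := hokx
  rcases adj_nat h hx with h1 | ⟨h', h1, h2⟩ | h1
  · left
    rw [h1]
    rfl
  · right
    have hoky := y.2
    rcases pb_eq_tru h2 with ⟨h3, _⟩ | ⟨h3, l, h4⟩
    · left
      rw [h3] at h1
      rw [h1] at hoky
      exact ⟨h1, hoky.2.1.2⟩
    · right
      rw [h4] at h1
      rw [h1] at hoky
      exact ⟨h3, l, h1, hoky.2.1⟩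
  · exfalso
    have hoky := y.2
    rw [h1] at hoky
    obtain ⟨_, _, h3, _⟩ := hoky
    unfold lev dep GH.own GH.ht at h3
    simp at h3
    omega

/-- Neighbours of an own fan. -/
private lemma nbF {x y : TV N e c s} {u : V} {l : Finset (Kd N Λ B FB)}
    (hx : x.1 = .nat true u (.fan u l)) (h : (TG N e c s).Adj x y) :
    y.1 = .nat true u (.tru u (2 * N - 1)) := by
  rcases adj_nat h hx with h1 | ⟨h', h1, h2⟩ | h1
  · rw [h1]
    rfl
  · exact absurd h2 pb_ne_fan
  · exfalso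
    have hoky := y.2
    rw [h1] at hoky
    exact hoky.2.2.2.1 rfl l rfl

/-- A hub of a piece `true` with center `u`. -/
private lemma okT_tru {u : V} {j : ℕ} (hu : s.rp u = u) (h1 : 1 ≤ j) (h2 : j < 2 * N) :
    okT N e c s (.nat true u (.tru u j)) := by
  refine ⟨hu, ⟨h1, h2⟩, Or.inl ?_⟩
  unfold lev dep GH.own GH.ht
  simp
  omega

private lemma okT_fan {u : V} {l : Finset (Kd N Λ B FB)} (hu : s.rp u = u)
    (hl : okG N e c (.fan u l)) : okT N e c s (.nat true u (.fan u l)) := by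
  refine ⟨hu, hl, Or.inl ?_⟩
  unfold lev dep GH.own GH.ht
  simp

private lemma adj_tru1 {x y : TV N e c s} {u : V} (hx : x.1 = .nat true u (.core u))
    (hy : y.1 = .nat true u (.tru u 1)) : (TG N e c s).Adj x y := by
  refine ⟨?_, Or.inr ?_⟩
  · intro h
    rw [h, hy] at hx
    injection hx with _ _ hx
    cases hx
  · rw [hx, hy]
    refine ⟨rfl, rfl, (by intro h; cases h), ?_⟩
    rfl

private lemma adj_tru {x y : TV N e c s} {u : V} {j : ℕ} (hj : 1 ≤ j)
    (hx : x.1 = .nat true u (.tru u j)) (hy : y.1 = .nat true u (.tru u (j + 1))) :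
    (TG N e c s).Adj x y := by
  refine ⟨?_, Or.inr ?_⟩
  · intro h
    rw [h, hy] at hx
    injection hx with _ _ hx
    injection hx with _ hx
    omega
  · rw [hx, hy]
    refine ⟨rfl, rfl, (by intro h; cases h), ?_⟩
    unfold pb GH.dp
    simp only
    rw [if_neg (by omega)]
    congr 1

private lemma adj_fan {x y : TV N e c s} {u : V} {l : Finset (Kd N Λ B FB)}
    (hx : x.1 = .nat true u (.tru u (2 * N - 1))) (hy : y.1 = .nat true u (.fan u l)) :
    (TG N e c s).Adj x y := by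
  refine ⟨?_, Or.inr ?_⟩
  · intro h
    rw [h, hy] at hx
    injection hx with _ _ hx
    cases hx
  · rw [hx, hy]
    refine ⟨rfl, rfl, (by intro h; cases h), ?_⟩
    rfl

end graph

section main

variable {V Q Λ B FB W : Type} [Fintype Λ] [Fintype B] [Fintype FB] {N e : ℕ}
  {c : Core V Q Λ B FB} {s : Ch V Q} {M : SimpleGraph W} {lm : W → Finset (Kd N Λ B FB)}

/-- A neighbour of a rigid hub is rigid with one more step. -/
private lemma Rg_adj {x y : TV N e c s} {r : ℕ} (h : Rg N e c s r x.1)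
    (hxy : (TG N e c s).Adj x y) : Rg N e c s (r + 1) y.1 := by
  obtain ⟨x', υ, h1, h2, h3⟩ := h
  have hx : x' = x := Subtype.ext h1
  subst hx
  refine ⟨y, υ, rfl, h2, ?_⟩
  have h4 : (TG N e c s).edist x' y = 1 := SimpleGraph.edist_eq_one_iff_adj.2 hxy
  calc (TG N e c s).edist υ y ≤ (TG N e c s).edist υ x' + (TG N e c s).edist x' y :=
        SimpleGraph.edist_triangle
    _ ≤ (r : ℕ∞) + 1 := by rw [h4]; exact add_le_add_left h3 1
    _ = ((r + 1 : ℕ) : ℕ∞) := by push_cast; rfl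

/-- Argument (star). -/
private lemma star (hRg : StRg) (hN : 1 ≤ N) (cx : Cx N e c s M lm) {t t' : TH V Q (Kd N Λ B FB)}
    {g g' : W}
    (ht : Pt N e c s M lm t g) (hn : ¬ Rg N e c s (2 * N) t) (hgg : M.Adj g g')
    (ht' : Pt N e c s M lm t' g') : ¬ Rg N e c s (2 * N - 1) t' := by
  intro hr
  obtain ⟨x, y, h1, h2, h3⟩ := (hRg.nbr N e c s M lm cx t' g' hr ht').2 g hgg.symm
  have h4 : Rg N e c s (2 * N) y.1 := by
    have h5 := Rg_adj (h1 ▸ hr : Rg N e c s (2 * N - 1) x.1) h2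
    have h6 : 2 * N - 1 + 1 = 2 * N := by omega
    rwa [h6] at h5
  exact hn ((hRg.uniq' N e c s M lm cx y.1 t g h4 h3 ht) ▸ h4)

/-- Neighbours by labels. -/
private lemma nb (hM : StMinj) (cx : Cx N e c s M lm) {x : TV N e c s} {g : W}
    (hx : Pt N e c s M lm x.1 g) :
    lm g = tL N e c s x ∧
    (∀ y, (TG N e c s).Adj x y → ∃ g', M.Adj g g' ∧ lm g' = tL N e c s y ∧
      ∀ g'', M.Adj g g'' → lm g'' = tL N e c s y → g'' = g') ∧
    (∀ g', M.Adj g g' → ∃ y, (TG N e c s).Adj x y ∧ tL N e c s y = lm g') := by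
  obtain ⟨h1, h2, h3⟩ := hM.nbr N e c s M lm cx x g hx
  refine ⟨h1, fun y hy => ?_, fun g' hg' => ?_⟩
  · obtain ⟨g', ⟨h4, h5⟩, h6⟩ := h2 y hy
    exact ⟨g', h4, h5, fun g'' h7 h8 => h6 g'' ⟨h7, h8⟩⟩
  · obtain ⟨y, ⟨h4, h5⟩, _⟩ := h3 g' hg'
    exact ⟨y, h4, h5⟩

/-- Neighbours with the same label are equal. -/
private lemma two (hM : StMinj) (cx : Cx N e c s M lm) {g g1 g2 : W} (h1 : M.Adj g g1)
    (h2 : M.Adj g g2) (h : lm g1 = lm g2) : g1 = g2 := by
  by_contra hne
  refine hM.two N e c s M lm cx g1 g2 hne ?_ h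
  have h3 : M.edist g1 g = 1 := SimpleGraph.edist_eq_one_iff_adj.2 h1.symm
  have h4 : M.edist g g2 = 1 := SimpleGraph.edist_eq_one_iff_adj.2 h2
  calc M.edist g1 g2 ≤ M.edist g1 g + M.edist g g2 := SimpleGraph.edist_triangle
    _ = 2 := by rw [h3, h4]; norm_num

/-- The partner of a vertex with a trunk label which is adjacent to a vertex with a free partner
and which has a neighbour with a given label. -/
private lemma part (hRg : StRg) (hM : StMinj) (hC : StCls) (cx : Cx N e c s M lm)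
    {t : TH V Q (Kd N Λ B FB)} {g g' : W}
    (ht : Pt N e c s M lm t g) (hn : ¬ Rg N e c s (2 * N) t) (hgg : M.Adj g g') {v : V} {j : ℕ}
    (hj : j ≤ 2 * N) (hl : lm g' = gl N e c (.tru v j)) :
    (∃ u, c.lb u = c.lb v ∧ Pt N e c s M lm (.nat true u (.tru u j)) g') ∨
      ∃ u l, Pt N e c s M lm (.nat true u (.fan u l)) g' := by
  have hN : 1 ≤ N := by have := cx.par; unfold Par at this; omega
  obtain ⟨t', ht'⟩ := (hM.ex N e c s M lm cx).1 g'
  have hns := star hRg hN cx ht hn hgg ht'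
  obtain ⟨hok, hdr⟩ := ht'
  have ht'' : Pt N e c s M lm t' g' := ⟨hok, hdr⟩
  have hlab : tL N e c s ⟨t', hok⟩ = gl N e c (.tru v j) := by
    rw [← hl]
    exact hdr.1
  rcases hC.cls N e c s cx.par cx.ax cx.ch t' hok with h | ⟨u, w, _, h⟩ | ⟨u, q, _, h⟩ | ⟨u, h⟩ |
    ⟨b, u, h⟩ | h | ⟨u, h⟩ | ⟨u, i, h⟩ | ⟨u, l, h⟩ | ⟨u, q, i, _, h⟩
  · exact absurd h hns
  · exfalso
    rw [tL_nat (y := ⟨t', hok⟩) h] at hlab
    exact core_ne hlab
  · exfalso
    rw [tL_nat (y := ⟨t', hok⟩) h] at hlab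
    exact gho_ne hlab
  · exfalso
    rw [tL_nat (y := ⟨t', hok⟩) h] at hlab
    exact core_ne hlab
  · exact absurd hlab (pth_ne (y := ⟨t', hok⟩) h)
  · exact absurd hlab (rt_ne (y := ⟨t', hok⟩) h)
  · exfalso
    rw [tL_nat (y := ⟨t', hok⟩) h] at hlab
    exact core_ne hlab
  · left
    rw [tL_nat (y := ⟨t', hok⟩) h] at hlab
    subst h
    obtain ⟨h3, h4⟩ := tru_inj (by have := hok.2.1.2; omega) hj hlab
    subst h4
    exact ⟨u, h3, ht''⟩
  · right
    subst h
    exact ⟨u, l, ht''⟩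
  · exfalso
    rw [tL_nat (y := ⟨t', hok⟩) h] at hlab
    exact gho_ne hlab

/-- Next hub of the trunk. -/
private lemma step (hRg : StRg) (hM : StMinj) (hC : StCls) (cx : Cx N e c s M lm) {u : V} {g : W}
    {j : ℕ} (hj : 1 ≤ j) (hj2 : j + 1 < 2 * N)
    (hg : ∃ u', c.lb u' = c.lb u ∧ Pt N e c s M lm (.nat true u' (.tru u' j)) g) :
    ∃ g', M.Adj g g' ∧ ∃ u', c.lb u' = c.lb u ∧
      Pt N e c s M lm (.nat true u' (.tru u' (j + 1))) g' := by
  obtain ⟨u1, hu1, hP⟩ := hg
  obtain ⟨hok, hdr⟩ := id hP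
  have hrp : s.rp u1 = u1 := hok.1
  have hok2 : okT N e c s (.nat true u1 (.tru u1 (j + 1))) := okT_tru hrp (by omega) hj2
  obtain ⟨g', h1, h2, _⟩ := (nb hM cx (x := ⟨_, hok⟩) hP).2.1 ⟨_, hok2⟩
    (adj_tru hj (x := ⟨_, hok⟩) (y := ⟨_, hok2⟩) rfl rfl)
  refine ⟨g', h1, ?_⟩
  rw [tL_nat (y := ⟨_, hok2⟩) rfl] at h2
  have hnr : ¬ Rg N e c s (2 * N) (.nat true u1 (.tru u1 j)) :=
    hC.free N e c s cx.par cx.ax cx.ch _ hok (Or.inr (Or.inr (Or.inl ⟨u1, j, rfl⟩)))
  rcases part hRg hM hC cx hP hnr h1 (by omega) h2 with ⟨u2, h3, h4⟩ | ⟨u2, l, h3⟩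
  · exact ⟨u2, h3.trans hu1, h4⟩
  · exfalso
    obtain ⟨hok3, hdr3⟩ := id h3
    obtain ⟨y, h5, h6⟩ := (nb hM cx (x := ⟨_, hok3⟩) h3).2.2 g h1.symm
    have h7 := nbF (x := ⟨_, hok3⟩) rfl h5
    have h8 : lm g = gl N e c (.tru u1 j) := by
      rw [(nb hM cx (x := ⟨_, hok⟩) hP).1, tL_nat (y := ⟨_, hok⟩) rfl]
    rw [tL_nat h7, h8] at h6
    have h9 := (tru_inj (by omega) (by omega) h6).2
    omega

/-- What the end of a trunk sees at distance two. -/
private lemma far2 {x t : TV N e c s} {u a : V} (hN : 2 ≤ N)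
    (hx : x.1 = .nat true u (.tru u (2 * N - 1)))
    (hd : (TG N e c s).edist x t ≤ 2) (hne : c.lb u ≠ c.lb a)
    (hl : tL N e c s t = gl N e c (.tru a (2 * N - 2))) : (TG N e c s).Adj x t := by
  have htop : (TG N e c s).edist x t ≠ ⊤ := by
    intro h
    rw [h] at hd
    exact absurd hd (by simp)
  obtain ⟨p, hp⟩ := SimpleGraph.exists_walk_of_edist_ne_top htop
  rw [← hp] at hd
  have hlen : p.length ≤ 2 := by exact_mod_cast hd
  have hlab : ∀ (z : TV N e c s) (i : ℕ), i ≤ 2 * N → z.1 = .nat true u (.tru u i) →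
      tL N e c s z ≠ gl N e c (.tru a (2 * N - 2)) := by
    intro z i hi hz h
    rw [tL_nat hz] at h
    exact hne (tru_inj hi (by omega) h).1
  cases p with
  | nil => exact absurd hl (hlab x _ (by omega) hx)
  | cons h1 p =>
    cases p with
    | nil => exact h1
    | cons h2 p =>
      cases p with
      | nil =>
        exfalso
        rcases nbT hx h1 with h3 | ⟨_, h3⟩ | ⟨_, l, h3, _⟩
        · rw [if_neg (by omega)] at h3
          rcases nbT h3 h2 with h4 | ⟨h4, h5⟩ | ⟨h4, _⟩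
          · rw [if_neg (by omega)] at h4
            exact hlab t _ (by omega) h4 hl
          · exact hlab t _ (by omega) h4 hl
          · omega
        · omega
        · exact hlab t _ (by omega) (nbF h3 h2) hl
      | cons h3 p =>
        simp only [SimpleGraph.Walk.length_cons] at hlen
        omega

end main

/-- **Module Tch.** -/
theorem pTch (hRg : StRg) (hM : StMinj) (hC : StCls) (hP : StPort) : StTch := by
  intro V Q Λ B FB W _ _ _ N e c s M lm cx u g hg
  have hpar := cx.par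
  unfold Par at hpar
  obtain ⟨hok, hdr⟩ := id hg
  have hrp : s.rp u = u := hok.1
  have hlabg : lm g = gl N e c (.core u) := by
    rw [(nb hM cx (x := ⟨_, hok⟩) hg).1, tL_nat (y := ⟨_, hok⟩) rfl]
  have hok1 : okT N e c s (.nat true u (.tru u 1)) := okT_tru hrp le_rfl (by omega)
  obtain ⟨g1, h1, h2, _⟩ := (nb hM cx (x := ⟨_, hok⟩) hg).2.1 ⟨_, hok1⟩
    (adj_tru1 (x := ⟨_, hok⟩) (y := ⟨_, hok1⟩) rfl rfl)
  rw [tL_nat (y := ⟨_, hok1⟩) rfl] at h2
  obtain ⟨u1, hu1, hP1⟩ := hP.tru N e c s M lm cx u g hg g1 h1 h2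
  classical
  let good : ℕ → W → Prop := fun j w =>
    ∃ u', c.lb u' = c.lb u ∧ Pt N e c s M lm (.nat true u' (.tru u' j)) w
  let F : ℕ → W → W := fun j w =>
    if h : ∃ w', M.Adj w w' ∧ good (j + 1) w' then h.choose else w
  let θ : ℕ → W := fun n => Nat.rec g F n
  have hstep : ∀ j, (∃ w', M.Adj (θ j) w' ∧ good (j + 1) w') →
      M.Adj (θ j) (θ (j + 1)) ∧ good (j + 1) (θ (j + 1)) := by
    intro j hj
    have h3 : θ (j + 1) = F j (θ j) := rfl
    rw [h3]
    simp only [F]
    rw [dif_pos hj]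
    exact hj.choose_spec
  have hgood : ∀ j, j + 1 < 2 * N → M.Adj (θ j) (θ (j + 1)) ∧ good (j + 1) (θ (j + 1)) := by
    intro j
    induction j with
    | zero => intro _; exact hstep 0 ⟨g1, h1, u1, hu1, hP1⟩
    | succ j ih =>
      intro hj
      exact hstep (j + 1) (step hRg hM hC cx (by omega) hj (ih (by omega)).2)
  have good' : ∀ j, 1 ≤ j → j < 2 * N → good j (θ j) := by
    intro j h1 h2
    obtain ⟨i, rfl⟩ : ∃ i, j = i + 1 := ⟨j - 1, by omega⟩
    exact (hgood i h2).2
  have labθ : ∀ j, 1 ≤ j → j < 2 * N → lm (θ j) = gl N e c (.tru u j) := by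
    intro j h1 h2
    obtain ⟨u', hu', hPt⟩ := good' j h1 h2
    obtain ⟨hok', _⟩ := id hPt
    rw [(nb hM cx (x := ⟨_, hok'⟩) hPt).1, tL_nat (y := ⟨_, hok'⟩) rfl]
    exact tru_congr hu'
  have hcore : ∀ u', c.lb u' = c.lb u → gl N e c (.core u') = gl N e c (.core u) := by
    intro u' h
    unfold gl
    simp only [h]
  refine ⟨θ, rfl, fun j hj => (hgood j (by omega)).1, fun j hj1 hj2 => ⟨good' j hj1 hj2, ?_⟩, ?_⟩
  · intro g' hg'
    obtain ⟨u', hu', hPt⟩ := good' j hj1 hj2
    obtain ⟨hok', _⟩ := id hPt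
    obtain ⟨y, hy1, hy2⟩ := (nb hM cx (x := ⟨_, hok'⟩) hPt).2.2 g' hg'
    rcases nbT (x := ⟨_, hok'⟩) rfl hy1 with h | ⟨h, hlt⟩ | ⟨hjeq, l, h, hl⟩
    · left
      have hadj : M.Adj (θ j) (θ (j - 1)) := by
        have h3 := (hgood (j - 1) (by omega)).1
        have h4 : j - 1 + 1 = j := by omega
        rw [h4] at h3
        exact h3.symm
      refine two hM cx hg' hadj ?_
      rw [← hy2, tL_nat h]
      by_cases hj : j ≤ 1
      · rw [if_pos hj]
        have h5 : j - 1 = 0 := by omega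
        rw [h5, hcore u' hu']
        exact hlabg.symm
      · rw [if_neg hj, labθ (j - 1) (by omega) (by omega)]
        exact tru_congr hu'
    · right; left
      refine ⟨by omega, two hM cx hg' (hgood j (by omega)).1 ?_⟩
      rw [← hy2, tL_nat h, labθ (j + 1) (by omega) (by omega)]
      exact tru_congr hu'
    · right; right
      have h3 : lm g' = l := by
        rw [← hy2, tL_nat h]
        rfl
      rw [h3]
      refine ⟨hjeq, okfan_congr hu' hl, ?_⟩
      intro h4
      have h5 := labθ (j - 1) (by omega) (by omega)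
      rw [← h4, h3] at h5
      exact (okfan_congr hu' hl).2 (j - 1) (by omega) (by omega) h5
  · intro l hl
    have hJ1 : 1 ≤ 2 * N - 1 := by omega
    have hJ2 : 2 * N - 1 < 2 * N := by omega
    obtain ⟨u', hu', hPt⟩ := good' (2 * N - 1) hJ1 hJ2
    obtain ⟨hok', hdr'⟩ := id hPt
    have hrp' : s.rp u' = u' := hok'.1
    have hokf : okT N e c s (.nat true u' (.fan u' l)) :=
      okT_fan hrp' (okfan_congr hu'.symm hl)
    obtain ⟨φ, hφ1, hφ2, _⟩ := (nb hM cx (x := ⟨_, hok'⟩) hPt).2.1 ⟨_, hokf⟩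
      (adj_fan (x := ⟨_, hok'⟩) (y := ⟨_, hokf⟩) rfl rfl)
    have hlφ : lm φ = l := by
      rw [hφ2, tL_nat (y := ⟨_, hokf⟩) rfl]
      rfl
    have hlJ := labθ (2 * N - 1) hJ1 hJ2
    refine ⟨φ, hφ1, hlφ, ?_, ?_⟩
    · intro h4
      have h5 := labθ (2 * N - 2) (by omega) (by omega)
      rw [← h4, hlφ] at h5
      exact hl.2 (2 * N - 2) (by omega) (by omega) h5
    · intro g' hg'
      have hN : 1 ≤ N := by omega
      have hnr : ¬ Rg N e c s (2 * N) (.nat true u' (.tru u' (2 * N - 1))) :=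
        hC.free N e c s cx.par cx.ax cx.ch _ hok' (Or.inr (Or.inr (Or.inl ⟨u', _, rfl⟩)))
      obtain ⟨t', ht'⟩ := (hM.ex N e c s M lm cx).1 φ
      have hns := star hRg hN cx hPt hnr hφ1 ht'
      obtain ⟨hokt, hdrt⟩ := id ht'
      obtain ⟨y, hy1, hy2⟩ := (nb hM cx (x := ⟨_, hokt⟩) ht').2.2 _ hφ1.symm
      rw [hlJ] at hy2
      have hlt : lm φ = tL N e c s ⟨t', hokt⟩ := (nb hM cx (x := ⟨_, hokt⟩) ht').1
      rcases hC.cls N e c s cx.par cx.ax cx.ch t' hokt with h | ⟨u2, w, _, h⟩ | ⟨u2, q, _, h⟩ |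
        ⟨u2, h⟩ | ⟨b, u2, h⟩ | h | ⟨u2, h⟩ | ⟨u2, i, h⟩ | ⟨u2, l2, h⟩ | ⟨u2, q, i, _, h⟩
      · exact absurd h hns
      · exact absurd hy2 (nbA (x := ⟨_, hokt⟩) h hy1 (Or.inl ⟨_, rfl⟩) (by omega) (by omega))
      · exact absurd hy2 (nbA (x := ⟨_, hokt⟩) h hy1 (Or.inr ⟨_, _, rfl⟩) (by omega) (by omega))
      · exact absurd hy2 (nbA (x := ⟨_, hokt⟩) h hy1 (Or.inl ⟨_, rfl⟩) (by omega) (by omega))
      · exact absurd hy2 (nbB (x := ⟨_, hokt⟩) (b := b) (u := u2) (i := 2 * N) (Or.inl h) hy1)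
      · exact absurd hy2 (nbB (x := ⟨_, hokt⟩) (b := true) (u := u) (i := 0) (Or.inr h) hy1)
      · exact absurd hy2 (nbA (x := ⟨_, hokt⟩) h hy1 (Or.inl ⟨_, rfl⟩) (by omega) (by omega))
      · -- the partner of `φ` is a trunk hub
        exfalso
        subst h
        have hi := hokt.2.1
        obtain ⟨hi1, hi2⟩ := hi
        rw [tL_nat (y := ⟨_, hokt⟩) rfl, hlφ] at hlt
        have key : c.lb u2 ≠ c.lb u := by
          intro h3
          rw [tru_congr h3] at hlt
          exact hl.2 i hi1 hi2 hlt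
        rcases nbT (x := ⟨_, hokt⟩) rfl hy1 with h | ⟨h, _⟩ | ⟨hieq, l3, h, hl3⟩
        · rw [tL_nat h] at hy2
          by_cases hi3 : i ≤ 1
          · rw [if_pos hi3] at hy2
            exact core_ne hy2
          · rw [if_neg hi3] at hy2
            exact key (tru_inj (by omega) (by omega) hy2).1
        · rw [tL_nat h] at hy2
          exact key (tru_inj (by omega) (by omega) hy2).1
        · subst hieq
          have hoky : okT N e c s (.nat true u2 (.tru u2 (2 * N - 2))) :=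
            okT_tru hokt.1 (by omega) (by omega)
          have hadj : (TG N e c s).Adj ⟨_, hoky⟩ ⟨_, hokt⟩ := by
            refine adj_tru (u := u2) (j := 2 * N - 2) (by omega) rfl ?_
            have h5 : 2 * N - 2 + 1 = 2 * N - 1 := by omega
            rw [h5]
          obtain ⟨ν, hν1, hν2, _⟩ := (nb hM cx (x := ⟨_, hokt⟩) ht').2.1 ⟨_, hoky⟩ hadj.symm
          rw [tL_nat (y := ⟨_, hoky⟩) rfl] at hν2
          have hle : M.edist (θ (2 * N - 1)) ν ≤ 2 := by
            calc M.edist (θ (2 * N - 1)) ν ≤ M.edist (θ (2 * N - 1)) φ + M.edist φ ν :=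
                  SimpleGraph.edist_triangle
              _ = 2 := by
                  rw [SimpleGraph.edist_eq_one_iff_adj.2 hφ1, SimpleGraph.edist_eq_one_iff_adj.2 hν1]
                  norm_num
          obtain ⟨t, ht1, _, ht3, _⟩ := hdr'.2.2 ν
          have hadjν : M.Adj (θ (2 * N - 1)) ν := by
            have htop : M.edist (θ (2 * N - 1)) ν ≠ ⊤ := by
              intro h6
              rw [h6] at hle
              exact absurd hle (by simp)
            obtain ⟨d, hd⟩ := ENat.ne_top_iff_exists.1 htop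
            have hd2 : d ≤ 2 := by
              rw [← hd] at hle
              exact_mod_cast hle
            have h7 := (ht3 d (by omega)).2 hd.symm
            have h8 : (TG N e c s).edist ⟨_, hok'⟩ t ≤ 2 := by
              rw [h7]
              exact_mod_cast hd2
            have h9 := far2 (x := ⟨_, hok'⟩) (u := u') (a := u2) (by omega) rfl h8
              (by rw [hu']; exact key.symm) (ht1.trans hν2)
            have h10 := (ht3 1 (by omega)).1 (SimpleGraph.edist_eq_one_iff_adj.2 h9)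
            exact SimpleGraph.edist_eq_one_iff_adj.1 h10
          rcases part hRg hM hC cx hPt hnr hadjν (by omega) hν2 with ⟨u3, h11, h12⟩ | ⟨u3, l4, h12⟩
          · obtain ⟨hok3, _⟩ := id h12
            obtain ⟨y3, h13, h14⟩ := (nb hM cx (x := ⟨_, hok3⟩) h12).2.2 _ hadjν.symm
            rw [hlJ] at h14
            rcases nbT (x := ⟨_, hok3⟩) rfl h13 with h | ⟨h, _⟩ | ⟨h, _⟩
            · rw [if_neg (by omega)] at h
              rw [tL_nat h] at h14
              exact key (h11.symm.trans (tru_inj (by omega) (by omega) h14).1)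
            · rw [tL_nat h] at h14
              exact key (h11.symm.trans (tru_inj (by omega) (by omega) h14).1)
            · omega
          · obtain ⟨hok3, _⟩ := id h12
            obtain ⟨y3, h13, h14⟩ := (nb hM cx (x := ⟨_, hok3⟩) h12).2.2 _ hadjν.symm
            obtain ⟨y4, h15, h16⟩ := (nb hM cx (x := ⟨_, hok3⟩) h12).2.2 _ hν1.symm
            rw [tL_nat (nbF (x := ⟨_, hok3⟩) rfl h13), hlJ] at h14
            rw [tL_nat (nbF (x := ⟨_, hok3⟩) rfl h15), hlφ, hlt] at h16
            rw [h14] at h16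
            exact key (tru_inj (by omega) (by omega) h16).1.symm
      · -- the partner of `φ` is a fan
        subst h
        obtain ⟨y2, h3, h4⟩ := (nb hM cx (x := ⟨_, hokt⟩) ht').2.2 g' hg'
        have h5 := nbF (x := ⟨_, hokt⟩) rfl h3
        have h6 := nbF (x := ⟨_, hokt⟩) rfl hy1
        refine two hM cx hg' hφ1.symm ?_
        rw [← h4, tL_nat h5, hlJ, ← hy2, tL_nat h6]
      · exact absurd hy2 (nbA (x := ⟨_, hokt⟩) h hy1 (Or.inr ⟨_, _, rfl⟩) (by omega) (by omega))

end Pool.Agent.Helper14.LD
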