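import Pool.Agent.Helper32.LD.StT3

/-!
# LD project, tiling part, module F1: the macro structure of a locally similar graph
-/

set_option autoImplicit false

namespace Pool.Agent.Helper14.LD

open Pool.Agent.Helper2.LD Pool.Agent.Helper32.LD

section seg

variable {I W : Type} {m t al : ℕ} {inf : ℕ → ℕ → I} {M : SimpleGraph W} {L : W → LbT I al}

private lemma lab_inl (x : BX m t) :
    lbB m t al inf (Sum.inl x) = (none, om m t inf x.1.1 x.1.2) := rfl

private lemma lab_ptE (ε : BE m t) {i : ℕ} (h0 : 0 < i) (h1 : i < al) :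
    lbB m t al inf ((bt m t).ptE al ε i) =
      (some (ε.1.1, ⟨i - 1, by omega⟩), om m t inf ε.1.2.1 ε.1.2.2) := by
  unfold MC.ptE
  rw [dif_pos ⟨h0, h1⟩]
  rfl

/-- A forward segment. -/
private lemma seg_fwd (hSB : StSB) (hal : 1 ≤ al) (ε : BE m t) (p : ℕ → W) (o : ℕ)
    (hadj : ∀ i < al, M.Adj (p (o + i)) (p (o + i + 1)))
    (hlab : ∀ i ≤ al, L (p (o + i)) = lbB m t al inf ((bt m t).pt al (ε, false) i)) :
    Pth al M L ε.1.1 (p o) (p (o + al)) ∧ L (p (o + al)) = lbB m t al inf (Sum.inl ((bt m t).hd ε)) ∧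
      L (p o) = lbB m t al inf (Sum.inl ((bt m t).tl ε)) := by
  have h0 := hlab 0 (by omega)
  rw [hSB.pt0 _ _ _ hal, Nat.add_zero] at h0
  have h1 := hlab al le_rfl
  rw [hSB.ptal _ _ _ hal] at h1
  have hs : (bt m t).src (ε, false) = (bt m t).tl ε := rfl
  have hd : (bt m t).dst (ε, false) = (bt m t).hd ε := rfl
  rw [hs] at h0
  rw [hd] at h1
  refine ⟨⟨by rw [h0]; rfl, by rw [h1]; rfl, fun i => p (o + i), rfl, rfl, fun i hi => hadj i hi,
    fun i hi0 hi1 => ?_⟩, h1, h0⟩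
  have h2 := hlab i hi1.le
  have h3 : (bt m t).pt al (ε, false) i = (bt m t).ptE al ε i := rfl
  rw [h3, lab_ptE ε hi0 hi1] at h2
  refine ⟨?_, ⟨i - 1, by omega⟩, rfl, by rw [h2]⟩
  rw [h2, h0]
  rfl

/-- A backward segment. -/
private lemma seg_bwd (hSB : StSB) (hal : 1 ≤ al) (ε : BE m t) (p : ℕ → W) (o : ℕ)
    (hadj : ∀ i < al, M.Adj (p (o + i)) (p (o + i + 1)))
    (hlab : ∀ i ≤ al, L (p (o + i)) = lbB m t al inf ((bt m t).pt al (ε, true) i)) :
    Pth al M L ε.1.1 (p (o + al)) (p o) ∧ L (p (o + al)) = lbB m t al inf (Sum.inl ((bt m t).tl ε)) ∧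
      L (p o) = lbB m t al inf (Sum.inl ((bt m t).hd ε)) := by
  have h0 := hlab 0 (by omega)
  rw [hSB.pt0 _ _ _ hal, Nat.add_zero] at h0
  have h1 := hlab al le_rfl
  rw [hSB.ptal _ _ _ hal] at h1
  have hs : (bt m t).src (ε, true) = (bt m t).hd ε := rfl
  have hd : (bt m t).dst (ε, true) = (bt m t).tl ε := rfl
  rw [hs] at h0
  rw [hd] at h1
  refine ⟨⟨by rw [h1]; rfl, by rw [h0]; rfl, fun i => p (o + (al - i)), ?_, ?_, fun i hi => ?_,
    fun i hi0 hi1 => ?_⟩, h1, h0⟩
  · simp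
  · simp
  · have h2 := (hadj (al - i - 1) (by omega)).symm
    have h3 : o + (al - i - 1) + 1 = o + (al - i) := by omega
    have h4 : o + (al - (i + 1)) = o + (al - i - 1) := by omega
    rw [h3] at h2
    show M.Adj (p (o + (al - i))) (p (o + (al - (i + 1))))
    rw [h4]
    exact h2
  · have h2 := hlab (al - i) (by omega)
    have h3 : (bt m t).pt al (ε, true) (al - i) = (bt m t).ptE al ε i := by
      have h5 : (bt m t).pt al (ε, true) (al - i) = (bt m t).ptE al ε (al - (al - i)) := rfl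
      rw [h5]
      congr 1
      omega
    rw [h3, lab_ptE ε hi0 hi1] at h2
    refine ⟨?_, ⟨i - 1, by omega⟩, rfl, ?_⟩
    · show (L (p (o + (al - i)))).2.1 = _
      rw [h2, h1]
      rfl
    · show (L (p (o + (al - i)))).1 = _
      rw [h2]

end seg

/-- **Module F1.** -/
theorem tF1 (hSB : StSB) (hFB : StFB) (hFC : StFC) : StF1 := by
  intro I m t al e inf hm ht hal he hX hLab W M L hLoc hne
  have hFC' := hFC m t al e inf hm ht hal he hX hLab M L hLoc
  refine ⟨(hFC' false).2.2.2.2 hne, ?_⟩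
  have hal1 : 1 ≤ al := by omega
  constructor
  · intro g h h' h1 h2
    exact Subtype.ext ((hFC' false).1 _ _ _ h1 h2)
  · intro g g' h h1 h2
    exact Subtype.ext ((hFC' false).2.1 _ _ _ h1 h2)
  · intro g h h' h1 h2
    exact Subtype.ext ((hFC' true).1 _ _ _ h1 h2)
  · intro g g' h h1 h2
    exact Subtype.ext ((hFC' true).2.1 _ _ _ h1 h2)
  · rintro ⟨g, hg⟩
    obtain ⟨x, hx, hA, hF⟩ := hFB m t al e inf hm ht hal he hX M L hLoc g hg
    obtain ⟨⟨n, k⟩, hn, hk⟩ := x
    simp only at hn hk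
    -- forward arcs
    have fwd : ∀ ε : BE m t, (bt m t).tl ε = ⟨(n, k), hn, hk⟩ →
        ∃ h, Pth al M L ε.1.1 g h ∧ L h = lbB m t al inf (Sum.inl ((bt m t).hd ε)) := by
      intro ε h
      obtain ⟨p, hp0, hp1, hp2⟩ := hA (ε, false) h
      have h1 := seg_fwd (inf := inf) (M := M) (L := L) hSB hal1 ε p 0
        (fun i hi => by rw [Nat.zero_add]; exact hp1 i hi)
        (fun i hi => by rw [Nat.zero_add]; exact hp2 i hi)
      rw [hp0] at h1
      exact ⟨_, h1.1, h1.2.1⟩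
    have bwd : ∀ ε : BE m t, (bt m t).hd ε = ⟨(n, k), hn, hk⟩ →
        ∃ h, Pth al M L ε.1.1 h g ∧ L h = lbB m t al inf (Sum.inl ((bt m t).tl ε)) := by
      intro ε h
      obtain ⟨p, hp0, hp1, hp2⟩ := hA (ε, true) h
      have h1 := seg_bwd (inf := inf) (M := M) (L := L) hSB hal1 ε p 0
        (fun i hi => by rw [Nat.zero_add]; exact hp1 i hi)
        (fun i hi => by rw [Nat.zero_add]; exact hp2 i hi)
      rw [hp0] at h1
      exact ⟨_, h1.1, h1.2.1⟩
    refine ⟨n, k, hn, hk, by rw [hx]; rfl, ?_, ?_, ?_, ?_, ?_, ?_, ?_, ?_, ?_⟩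
    · intro hk2
      obtain ⟨h, h1, h2⟩ := fwd ⟨(false, n, k), hn, hk, fun _ => hk2, fun h => by simp at h⟩ rfl
      exact ⟨⟨h, by rw [h2]; rfl⟩, h1, by show (L h).2.1 = _; rw [h2]; rfl⟩
    · intro hk0
      obtain ⟨h, h1, h2⟩ := bwd ⟨(false, n, k - 1), hn, by simp only; omega,
        fun _ => by simp only; omega, fun h => by simp at h⟩ (by
          apply Subtype.ext
          show (n, k - 1 + 1) = (n, k)
          rw [Nat.sub_add_cancel hk0])
      exact ⟨⟨h, by rw [h2]; rfl⟩, h1, by show (L h).2.1 = _; rw [h2]; rfl⟩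
    · intro hnt
      obtain ⟨h, h1, h2⟩ := fwd ⟨(true, n, k), hn, hk, fun h => by simp at h, fun _ => hnt⟩ rfl
      exact ⟨⟨h, by rw [h2]; rfl⟩, h1, by show (L h).2.1 = _; rw [h2]; rfl⟩
    · intro hn0 hk2
      have hk3 : k / 2 ≤ m * 2 ^ (n - 1) := by
        have h3 : m * 2 ^ n = 2 * (m * 2 ^ (n - 1)) := by
          obtain ⟨n', rfl⟩ : ∃ n', n = n' + 1 := ⟨n - 1, by omega⟩
          rw [Nat.add_sub_cancel, pow_succ]
          ring
        omega
      obtain ⟨h, h1, h2⟩ := bwd ⟨(true, n - 1, k / 2), by simp only; omega, hk3,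
        fun h => by simp at h, fun _ => by simp only; omega⟩ (by
          apply Subtype.ext
          show (n - 1 + 1, 2 * (k / 2)) = (n, k)
          rw [Nat.sub_add_cancel hn0, Nat.mul_div_cancel' (Nat.dvd_of_mod_eq_zero hk2)])
      exact ⟨⟨h, by rw [h2]; rfl⟩, h1, by show (L h).2.1 = _; rw [h2]; rfl⟩
    · intro hnt hk2
      obtain ⟨p, hp0, hp5, hp1, hp2⟩ := hF ⟨(n, k), hnt, hk2⟩ 0 rfl
      have hsegf : ∀ (j : ℕ) (ε : BE m t), j < 5 →
          (bt m t).arc ⟨(n, k), hnt, hk2⟩ (0 + (j : ZMod 5)) = (ε, false) →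
          Pth al M L ε.1.1 (p (j * al)) (p (j * al + al)) ∧
            L (p (j * al + al)) = lbB m t al inf (Sum.inl ((bt m t).hd ε)) ∧
            L (p (j * al)) = lbB m t al inf (Sum.inl ((bt m t).tl ε)) := by
        intro j ε hj hε
        refine seg_fwd hSB hal1 ε p (j * al) (fun i hi => hp1 _ ?_) (fun i hi => ?_)
        · have h6 : j * al ≤ 4 * al := Nat.mul_le_mul_right _ (by omega)
          omega
        · rw [hp2 j i hj hi, hε]
      have hsegb : ∀ (j : ℕ) (ε : BE m t), j < 5 →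
          (bt m t).arc ⟨(n, k), hnt, hk2⟩ (0 + (j : ZMod 5)) = (ε, true) →
          Pth al M L ε.1.1 (p (j * al + al)) (p (j * al)) ∧
            L (p (j * al + al)) = lbB m t al inf (Sum.inl ((bt m t).tl ε)) ∧
            L (p (j * al)) = lbB m t al inf (Sum.inl ((bt m t).hd ε)) := by
        intro j ε hj hε
        refine seg_bwd hSB hal1 ε p (j * al) (fun i hi => hp1 _ ?_) (fun i hi => ?_)
        · have h6 : j * al ≤ 4 * al := Nat.mul_le_mul_right _ (by omega)
          omega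
        · rw [hp2 j i hj hi, hε]
      have s0 := hsegf 0 _ (by norm_num) rfl
      have s1 := hsegf 1 _ (by norm_num) rfl
      have s2 := hsegb 2 _ (by norm_num) rfl
      have s3 := hsegb 3 _ (by norm_num) rfl
      have s4 := hsegb 4 _ (by norm_num) rfl
      have e0 : 0 * al = 0 := by ring
      have e1 : 0 + al = al := by ring
      have e2 : 1 * al = al := by ring
      have e3 : al + al = 2 * al := by ring
      have e4 : 2 * al + al = 3 * al := by ring
      have e5 : 3 * al + al = 4 * al := by ring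
      have e6 : 4 * al + al = 5 * al := by ring
      rw [e0, e1, hp0] at s0
      rw [e2, e3] at s1
      rw [e4] at s2
      rw [e5] at s3
      rw [e6, hp5] at s4
      have n1 : (L (p al)).1 = none := by rw [s0.2.1]; rfl
      have n2 : (L (p (2 * al))).1 = none := by rw [s1.2.1]; rfl
      have n3 : (L (p (3 * al))).1 = none := by rw [s2.2.1]; rfl
      have n4 : (L (p (4 * al))).1 = none := by rw [s3.2.1]; rfl
      refine ⟨⟨_, n1⟩, ⟨_, n2⟩, ⟨_, n3⟩, ⟨_, n4⟩, s0.1, s1.1, s2.1, s3.1, s4.1, ?_, ?_, ?_, ?_⟩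
      · show (L (p al)).2.1 = _
        rw [s0.2.1]; rfl
      · show (L (p (2 * al))).2.1 = _
        rw [s1.2.1]; rfl
      · show (L (p (3 * al))).2.1 = _
        rw [s2.2.1]; rfl
      · show (L (p (4 * al))).2.1 = _
        rw [s3.2.1]; rfl
    · intro hk2 h hR
      have h1 := ((hFC' false).2.2.1 g h.1 ⟨(n, k), hn, hk⟩ hx hR).1 rfl
      simp only at h1
      omega
    · intro hk2 h hR
      have h1 := ((hFC' false).2.2.2.1 h.1 g ⟨(n, k), hn, hk⟩ hx hR).1 rfl
      simp only at h1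
      omega
    · intro hk2 h hR
      have h1 := ((hFC' true).2.2.1 g h.1 ⟨(n, k), hn, hk⟩ hx hR).2 rfl
      simp only at h1
      omega
    · intro hk2 h hR
      have h1 := ((hFC' true).2.2.2.1 h.1 g ⟨(n, k), hn, hk⟩ hx hR).2 rfl
      simp only at h1
      omega

end Pool.Agent.Helper14.LD
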